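import Mathlib

set_option autoImplicit false

namespace Pool.Agent.Results.MP_41a700_co.K38

open SimpleGraph Set

/-- A matroidal family: a non-empty isomorphism-closed class of finite connected simple graphs such
that in every finite simple graph the edge sets of the subgraphs belonging to the class are the
circuits of a matroid on the edge set. -/
structure IsMatroidal (P : ∀ V : Type, SimpleGraph V → Prop) : Prop where
  nonempty : ∃ V G, P V G
  finite : ∀ V G, P V G → Finite V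
  connected : ∀ V G, P V G → G.Connected
  iso : ∀ V W G H, Nonempty (G ≃g H) → P V G → P W H
  matroid : ∀ (V : Type) [Finite V] (G : SimpleGraph V), ∃ M : Matroid (Sym2 V), M.E = G.edgeSet ∧
    ∀ C, M.IsCircuit C ↔ ∃ H : G.Subgraph, P H.verts H.coe ∧ C = H.edgeSet

lemma circ {P : ∀ V : Type, SimpleGraph V → Prop} (h : IsMatroidal P)
    (hK : P _ (completeBipartiteGraph (Fin 3) (Fin 8))) {V : Type} {M : Matroid (Sym2 V)}
    (hM : ∀ C, M.IsCircuit C ↔ ∃ H : (⊤ : SimpleGraph V).Subgraph, P H.verts H.coe ∧ C = H.edgeSet)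
    (f : Fin 3 → V) (g : Fin 8 → V) (hf : Function.Injective (Sum.elim f g)) :
    M.IsCircuit {e | ∃ i j, e = s(f i, g j)} := by
  let φ : completeBipartiteGraph (Fin 3) (Fin 8) →g (⊤ : SimpleGraph V) :=
    ⟨Sum.elim f g, fun h => hf.ne h.ne⟩
  refine (hM _).2 ⟨(⊤ : Subgraph _).map φ, h.iso _ _ _ _
    ⟨(Subgraph.topIso.symm.trans (Copy.isoSubgraphMap ⟨φ, hf⟩ ⊤))⟩ hK, ?_⟩
  rw [Subgraph.edgeSet_map, Subgraph.edgeSet_top]
  ext e
  constructor
  · rintro ⟨i, j, rfl⟩
    exact ⟨s(.inl i, .inr j), by simp, rfl⟩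
  · rintro ⟨e, he, rfl⟩
    induction e using Sym2.ind with | _ a b => ?_
    rcases a with a | a <;> rcases b with b | b <;> simp at he
    · exact ⟨a, b, rfl⟩
    · exact ⟨b, a, Sym2.eq_swap⟩

lemma inj {V : Type} {f : Fin 3 → V} {v : V} {g : Fin 7 → V} (hf : Function.Injective f)
    (hg : Function.Injective g) (h1 : ∀ j, g j ≠ v) (h2 : ∀ i, f i ≠ v) (h3 : ∀ i j, f i ≠ g j) :
    Function.Injective (Sum.elim f (Fin.cons v g : Fin 8 → V)) :=
  hf.sumElim (Fin.cons_injective_iff.2 ⟨fun ⟨j, h⟩ => h1 j h, hg⟩) fun i => Fin.cases (h2 i) (h3 i)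

abbrev W := Fin 82 × (Fin 3 ⊕ Fin 7)
abbrev V := (Fin 2 ⊕ Fin 7 ⊕ Fin 7) ⊕ W

theorem result : ¬ ∃ P : ∀ V : Type, SimpleGraph V → Prop, IsMatroidal P ∧
    P _ (completeBipartiteGraph (Fin 3) (Fin 8)) := by
  classical
  rintro ⟨P, h, hK⟩
  obtain ⟨M, hE, hM⟩ := h.matroid V ⊤
  let X : Finset (Sym2 V) :=
    (Finset.univ.image fun p : Fin 2 × V => s(.inl (.inl p.1), p.2)) ∪
      Finset.univ.image fun p : Fin 7 × Fin 7 => s(.inl (.inr (.inl p.1)), .inl (.inr (.inr p.2)))
  have hX : ∀ (i : Fin 2) (v : V), s(.inl (.inl i), v) ∈ (X : Set (Sym2 V)) := fun i v => by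
    simp only [X, Finset.coe_union, Finset.coe_image, Finset.coe_univ]
    exact Or.inl ⟨(i, v), trivial, rfl⟩
  have hX2 : ∀ a b : Fin 7, s(.inl (.inr (.inl a)), .inl (.inr (.inr b))) ∈ (X : Set (Sym2 V)) :=
    fun a b => by simp [X]
  have hX3 : X.card ≤ 1721 := ((Finset.card_union_le _ _).trans
    (add_le_add Finset.card_image_le Finset.card_image_le)).trans (by simp)
  clear_value X
  have key : ∀ (c v : V) (g : Fin 7 → V),
      Function.Injective (Sum.elim ![c, .inl (.inl 0), .inl (.inl 1)] (Fin.cons v g : Fin 8 → V)) →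
      (∀ j, s(c, g j) ∈ M.closure X) → s(c, v) ∈ M.closure X := fun c v g hi hg => by
    have hC := circ h hK hM _ _ hi
    refine M.closure_subset_closure_of_subset_closure ?_
      (hC.mem_closure_sdiff_singleton_of_mem ⟨0, 0, rfl⟩)
    rintro e ⟨he, hne⟩
    have hE := hC.subset_ground he
    obtain ⟨i, j, rfl⟩ := he
    fin_cases i
    · refine Fin.cases (fun _ h => (h rfl).elim) (fun j _ _ => hg j) j hE hne
    · exact M.mem_closure_of_mem' (hX 0 _) hE
    · exact M.mem_closure_of_mem' (hX 1 _) hE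
  have s1 : ∀ (w : W) (a : Fin 7), s(.inr w, .inl (.inr (.inl a))) ∈ M.closure X := fun w a => by
    rw [Sym2.eq_swap]
    refine key _ _ (fun j => .inl (.inr (.inr j))) ?_ fun j =>
      M.mem_closure_of_mem' (hX2 _ _) (by simp [hE])
    refine inj ?_ ?_ ?_ ?_ ?_ <;> simp [Function.Injective, Fin.forall_fin_succ (n := 2)]
  have s2 : ∀ v w : W, v ≠ w → s(.inr v, .inr w) ∈ M.closure X := fun v w hne => by
    refine key _ _ (fun j => .inl (.inr (.inl j))) ?_ (s1 v)
    refine inj ?_ ?_ ?_ ?_ ?_ <;> simp [Function.Injective, Fin.forall_fin_succ (n := 2), hne]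
  let y : Fin 82 × Fin 3 × Fin 7 → Sym2 V := fun p => s(.inr (p.1, .inl p.2.1), .inr (p.1, .inr p.2.2))
  have hy : Function.Injective y := by
    rintro ⟨a, b, c⟩ ⟨a', b', c'⟩ e
    simp [y] at e
    simp [e]
  have hY : M.Indep (range y) := by
    rw [M.indep_iff_forall_subset_not_isCircuit (by rintro _ ⟨p, rfl⟩; simp [hE, y])]
    intro C hC hc
    obtain ⟨H, hH, rfl⟩ := (hM C).1 hc
    let k : V → Option (Fin 82) := Sum.elim (fun _ => none) fun w => some w.1
    have h1 : ∀ u v : H.verts, k u = k v := fun u v => by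
      obtain ⟨p⟩ := (h.connected _ _ hH).preconnected u v
      induction p with
      | nil => rfl
      | cons ha _ ih =>
        obtain ⟨q, hq⟩ := hC (Subgraph.mem_edgeSet.2 ha)
        rw [← ih]
        rcases Sym2.eq_iff.1 hq with ⟨h1, h2⟩ | ⟨h1, h2⟩ <;> rw [← h1, ← h2] <;> rfl
    obtain ⟨e, he⟩ := hc.nonempty
    obtain ⟨p, rfl⟩ := hC he
    have hD := circ h hK hM (fun i => .inr (p.1, .inl i))
      (Fin.cons (.inl (.inl 0)) fun j => .inr (p.1, .inr j)) (by
        refine inj ?_ ?_ ?_ ?_ ?_ <;> simp [Function.Injective])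
    have h2 := hc.eq_of_subset_isCircuit hD fun e he' => by
      obtain ⟨q, rfl⟩ := hC he'
      have : p.1 = q.1 := Option.some.inj (h1 ⟨_, H.edge_vert he⟩ ⟨_, H.edge_vert he'⟩)
      exact ⟨q.2.1, q.2.2.succ, by simp [y, this]⟩
    obtain ⟨q, hq⟩ := hC (h2.symm.subset ⟨0, 0, rfl⟩)
    simp [y] at hq
  have h1 := (hY.encard_le_eRk_of_subset (show range y ⊆ M.closure X by
    rintro _ ⟨p, rfl⟩; exact s2 _ _ (by simp))).trans ((M.eRk_closure_eq _).trans_le (M.eRk_le_encard _))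
  rw [← image_univ, hy.encard_image, encard_univ, encard_coe_eq_coe_finsetCard,
    ENat.card_eq_coe_fintype_card, Nat.cast_le] at h1
  simpa using h1.trans hX3

end Pool.Agent.Results.MP_41a700_co.K38
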